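import Mathlib

set_option autoImplicit false

/-! Friends-and-strangers graphs: a lollipop with a long tail against a highly connected graph of
girth at least five.  The friends-and-strangers graph is connected and has exponential diameter. -/

namespace Pool.Agent.FSDiam

open Equiv

variable {n : ℕ}

/-- one friendly swap -/
def FSRel (X Y : SimpleGraph (Fin n)) (σ τ : Perm (Fin n)) : Prop :=
  ∃ a b : Fin n, X.Adj a b ∧ Y.Adj (σ a) (σ b) ∧ τ = σ * Equiv.swap a b

/-- the friends-and-strangers graph (same term as in the frozen statement) -/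
abbrev FS (X Y : SimpleGraph (Fin n)) : SimpleGraph (Perm (Fin n)) :=
  SimpleGraph.fromRel (fun σ τ : Equiv.Perm (Fin n) =>
    ∃ a b : Fin n, X.Adj a b ∧ Y.Adj (σ a) (σ b) ∧ τ = σ * Equiv.swap a b)

lemma FSRel.symm {X Y : SimpleGraph (Fin n)} {σ τ : Perm (Fin n)} (h : FSRel X Y σ τ) :
    FSRel X Y τ σ := by
  obtain ⟨a, b, hX, hY, rfl⟩ := h
  refine ⟨a, b, hX, ?_, ?_⟩
  · simpa [Perm.mul_apply] using hY.symm
  · rw [mul_assoc, Equiv.swap_mul_self, mul_one]

lemma FSRel.ne {X Y : SimpleGraph (Fin n)} {σ τ : Perm (Fin n)} (h : FSRel X Y σ τ) :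
    σ ≠ τ := by
  obtain ⟨a, b, hX, hY, rfl⟩ := h
  intro he
  have h1 : σ a = (σ * Equiv.swap a b) a := congrArg (fun f : Perm (Fin n) => f a) he
  rw [Perm.mul_apply, Equiv.swap_apply_left] at h1
  exact hX.ne (σ.injective h1)

lemma FS_adj {X Y : SimpleGraph (Fin n)} {σ τ : Perm (Fin n)} :
    (FS X Y).Adj σ τ ↔ FSRel X Y σ τ := by
  constructor
  · intro h
    rw [SimpleGraph.fromRel_adj] at h
    rcases h.2 with h | h
    · exact h
    · exact FSRel.symm h
  · intro h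
    rw [SimpleGraph.fromRel_adj]
    exact ⟨h.ne, Or.inl h⟩

/-- the lollipop: a clique on the first `m` vertices followed by a path -/
def Lol (n m : ℕ) : SimpleGraph (Fin n) where
  Adj i j := i ≠ j ∧ ((i.val < m ∧ j.val < m) ∨ i.val + 1 = j.val ∨ j.val + 1 = i.val)
  symm := ⟨by
    intro i j h
    exact ⟨h.1.symm, by rcases h.2 with h | h | h <;> tauto⟩⟩
  loopless := ⟨by intro i h; exact h.1 rfl⟩

/-- If a friendly swap on the lollipop moves the person at a tail position `p+1` while the person at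
`p+2` (if any) stays, then it exchanges the persons at `p` and `p+1`. -/
lemma step_tail {m p : ℕ} {Y : SimpleGraph (Fin n)} {σ τ : Perm (Fin n)}
    (h : FSRel (Lol n m) Y σ τ) (hp : p + 1 < n) (hm : m ≤ p + 1)
    (hfr : ∀ q : Fin n, q.val = p + 2 → τ q = σ q)
    (hne : τ ⟨p + 1, hp⟩ ≠ σ ⟨p + 1, hp⟩) :
    τ ⟨p + 1, hp⟩ = σ ⟨p, by omega⟩ ∧ τ ⟨p, by omega⟩ = σ ⟨p + 1, hp⟩ ∧
      Y.Adj (σ ⟨p + 1, hp⟩) (τ ⟨p + 1, hp⟩) := by
  have key : ∀ a b : Fin n, (Lol n m).Adj a b → Y.Adj (σ a) (σ b) → τ = σ * Equiv.swap a b →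
      a.val = p + 1 → τ ⟨p + 1, hp⟩ = σ ⟨p, by omega⟩ ∧ τ ⟨p, by omega⟩ = σ ⟨p + 1, hp⟩ ∧
      Y.Adj (σ ⟨p + 1, hp⟩) (τ ⟨p + 1, hp⟩) := by
    intro a b hX hY hτ ha
    have ha' : (⟨p + 1, hp⟩ : Fin n) = a := Fin.ext ha.symm
    have hb : b.val = p := by
      rcases hX.2 with h1 | h1 | h1
      · omega
      · exfalso
        have h2 := hfr b (by omega)
        rw [hτ, Perm.mul_apply, Equiv.swap_apply_right] at h2
        exact hX.1 (σ.injective h2)
      · omega
    have hb' : (⟨p, by omega⟩ : Fin n) = b := Fin.ext hb.symm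
    rw [ha', hb', hτ]
    refine ⟨?_, ?_, ?_⟩
    · rw [Perm.mul_apply, Equiv.swap_apply_left]
    · rw [Perm.mul_apply, Equiv.swap_apply_right]
    · rw [Perm.mul_apply, Equiv.swap_apply_left]; exact hY
  obtain ⟨a, b, hX, hY, hτ⟩ := h
  by_cases ha : a.val = p + 1
  · exact key a b hX hY hτ ha
  · by_cases hb : b.val = p + 1
    · exact key b a hX.symm hY.symm (by rw [hτ, Equiv.swap_comm]) hb
    · exfalso
      apply hne
      rw [hτ, Perm.mul_apply, Equiv.swap_apply_of_ne_of_ne]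
      · intro h; apply ha; rw [← h]
      · intro h; apply hb; rw [← h]

lemma exists_last {P : ℕ → Prop} (s t : ℕ) (hst : s ≤ t) (hs : P s) :
    ∃ α, s ≤ α ∧ α ≤ t ∧ P α ∧ ∀ i, α < i → i ≤ t → ¬ P i := by
  induction t, hst using Nat.le_induction with
  | base => exact ⟨s, le_rfl, le_rfl, hs, fun i h1 h2 => by omega⟩
  | succ t ht ih =>
    by_cases h : P (t + 1)
    · exact ⟨t + 1, by omega, le_rfl, h, fun i h1 h2 => by omega⟩
    · obtain ⟨α, h1, h2, h3, h4⟩ := ih
      refine ⟨α, h1, by omega, h3, fun i hi1 hi2 => ?_⟩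
      rcases Nat.lt_or_ge t i with hh | hh
      · have : i = t + 1 := by omega
        rw [this]; exact h
      · exact h4 i hi1 hh

/-- first turning point of a lazy walk (after the last visit of the start) -/
lemma first_turn {V : Type*} (G : V → V → Prop) (f : ℕ → V) (s t : ℕ) (hst : s ≤ t)
    (hf : ∀ i, s ≤ i → i < t → f (i + 1) = f i ∨ G (f i) (f (i + 1)))
    (u v : V) (hu : f s = u) (hv : f t = v) (huv : u ≠ v) (hG : ¬ G u v) :
    ∃ α β, s ≤ α ∧ α + 1 < β ∧ β ≤ t ∧ f α = u ∧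
      (∀ i, α < i → i < β → f i = f (α + 1)) ∧ f β ≠ f (α + 1) ∧ f β ≠ u ∧ G u (f (α + 1)) := by
  classical
  obtain ⟨α, hα1, hα2, hα3, hα4⟩ := exists_last (P := fun i => f i = u) s t hst hu
  have hαt : α < t := by
    rcases Nat.lt_or_ge α t with h | h
    · exact h
    · exfalso
      have : α = t := by omega
      subst this
      exact huv (hα3.symm.trans hv)
  have hw : G u (f (α + 1)) := by
    rcases hf α hα1 hαt with h | h
    · exact absurd (h.trans hα3) (hα4 (α + 1) (by omega) (by omega))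
    · rwa [hα3] at h
  -- β = first time after α+1 with different value
  have hex : ∃ β, α + 1 < β ∧ β ≤ t ∧ f β ≠ f (α + 1) := by
    refine ⟨t, ?_, le_rfl, ?_⟩
    · rcases Nat.lt_or_ge (α + 1) t with h | h
      · exact h
      · exfalso
        have : α + 1 = t := by omega
        rw [this, hv] at hw
        exact hG hw
    · intro h
      rw [← h, hv] at hw
      exact hG hw
  refine ⟨α, Nat.find hex, hα1, (Nat.find_spec hex).1, (Nat.find_spec hex).2.1, hα3, ?_,
    (Nat.find_spec hex).2.2, ?_, hw⟩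
  · intro i hi1 hi2
    by_contra hne
    rcases Nat.lt_or_ge (α + 1) i with h | h
    · exact Nat.find_min hex hi2 ⟨h, by have := (Nat.find_spec hex).2.1; omega, hne⟩
    · apply hne
      have : i = α + 1 := by omega
      rw [this]
  · exact hα4 _ (by have := (Nat.find_spec hex).1; omega) (Nat.find_spec hex).2.1

/-- The local girth condition: no triangles and no 4-cycles. -/
structure Girthy (Y : SimpleGraph (Fin n)) : Prop where
  tri : ∀ b u v, Y.Adj b u → Y.Adj b v → ¬ Y.Adj u v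
  quad : ∀ b u v w, Y.Adj b u → Y.Adj b v → u ≠ v → Y.Adj w u → Y.Adj w v → w = b

/-- two disjoint turning intervals -/
lemma two_turns {V : Type*} (G : V → V → Prop) (f : ℕ → V) (s t : ℕ) (hst : s ≤ t)
    (hf : ∀ i, s ≤ i → i < t → f (i + 1) = f i ∨ G (f i) (f (i + 1)))
    (u v : V) (hu : f s = u) (hv : f t = v) (huv : u ≠ v) (hG : ¬ G u v)
    (hq : ∀ i, s ≤ i → i ≤ t → ¬ (G u (f i) ∧ G (f i) v)) :
    ∃ α β γ δ, s ≤ α ∧ α + 1 < β ∧ β ≤ γ + 1 ∧ γ + 1 < δ ∧ δ ≤ t ∧
      f α = u ∧ (∀ i, α < i → i < β → f i = f (α + 1)) ∧ f β ≠ f (α + 1) ∧ f β ≠ f α ∧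
        G (f α) (f (α + 1)) ∧
      f δ = v ∧ (∀ i, γ < i → i < δ → f i = f (γ + 1)) ∧ f γ ≠ f (γ + 1) ∧ f γ ≠ f δ ∧
        G (f (γ + 1)) (f δ) := by
  classical
  obtain ⟨α, hα1, hα2, hα3, hα4⟩ := exists_last (P := fun i => f i = u) s t hst hu
  have hαt : α < t := by
    rcases Nat.lt_or_ge α t with h | h
    · exact h
    · exfalso
      have : α = t := by omega
      subst this
      exact huv (hα3.symm.trans hv)
  have hw : G u (f (α + 1)) := by
    rcases hf α hα1 hαt with h | h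
    · exact absurd (h.trans hα3) (hα4 (α + 1) (by omega) (by omega))
    · rwa [hα3] at h
  -- β = first time after α+1 with different value
  have hex : ∃ β, α + 1 < β ∧ β ≤ t ∧ f β ≠ f (α + 1) := by
    refine ⟨t, ?_, le_rfl, ?_⟩
    · rcases Nat.lt_or_ge (α + 1) t with h | h
      · exact h
      · exfalso
        have : α + 1 = t := by omega
        rw [this, hv] at hw
        exact hG hw
    · intro h
      rw [← h, hv] at hw
      exact hG hw
  obtain ⟨β, hβ⟩ : ∃ β, β = Nat.find hex := ⟨_, rfl⟩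
  have hβ1 : α + 1 < β := hβ ▸ (Nat.find_spec hex).1
  have hβ2 : β ≤ t := hβ ▸ (Nat.find_spec hex).2.1
  have hβ3 : f β ≠ f (α + 1) := hβ ▸ (Nat.find_spec hex).2.2
  have hβ4 : ∀ i, α < i → i < β → f i = f (α + 1) := by
    intro i hi1 hi2
    by_contra hne
    rcases Nat.lt_or_ge (α + 1) i with h | h
    · exact Nat.find_min hex (hβ ▸ hi2) ⟨h, by omega, hne⟩
    · apply hne
      have : i = α + 1 := by omega
      rw [this]
  have hβ5 : f β ≠ f α := by rw [hα3]; exact hα4 _ (by omega) hβ2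
  -- δ = first time after α with value v
  have hex2 : ∃ δ, α ≤ δ ∧ f δ = v := ⟨t, by omega, hv⟩
  obtain ⟨δ, hδ⟩ : ∃ δ, δ = Nat.find hex2 := ⟨_, rfl⟩
  have hδ1 : α ≤ δ := hδ ▸ (Nat.find_spec hex2).1
  have hδ2 : f δ = v := hδ ▸ (Nat.find_spec hex2).2
  have hδt : δ ≤ t := by rw [hδ]; exact Nat.find_min' hex2 ⟨by omega, hv⟩
  have hδmin : ∀ i, α ≤ i → i < δ → f i ≠ v := by
    intro i hi1 hi2 h
    exact Nat.find_min hex2 (hδ ▸ hi2) ⟨hi1, h⟩
  have hαδ : α < δ := by
    rcases Nat.lt_or_ge α δ with h | h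
    · exact h
    · exfalso
      have : α = δ := by omega
      rw [← this, hα3] at hδ2
      exact huv hδ2
  obtain ⟨ε, rfl⟩ : ∃ ε, δ = ε + 1 := ⟨δ - 1, by omega⟩
  have hw2 : G (f ε) v := by
    rcases hf ε (by omega) (by omega) with h | h
    · exact absurd (h.symm.trans hδ2) (hδmin ε (by omega) (by omega))
    · rwa [hδ2] at h
  have hε : f α ≠ f ε := by
    intro h
    rw [← h, hα3] at hw2
    exact hG hw2
  -- γ = last time before ε with value different from f ε
  obtain ⟨γ, hγ1, hγ2, hγ3, hγ4⟩ := exists_last (P := fun i => f i ≠ f ε) α ε (by omega) hε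
  simp only [not_not] at hγ3 hγ4
  have hγε : γ < ε := by
    rcases Nat.lt_or_ge γ ε with h | h
    · exact h
    · exfalso
      have : γ = ε := by omega
      exact hγ3 (by rw [this])
  have hγv : f (γ + 1) = f ε := hγ4 _ (by omega) (by omega)
  refine ⟨α, β, γ, ε + 1, hα1, hβ1, ?_, by omega, hδt, hα3, hβ4, hβ3, hβ5, ?_, hδ2, ?_, ?_, ?_, ?_⟩
  · by_contra hcon
    have h1 : f (γ + 1) = f (α + 1) := hβ4 _ (by omega) (by omega)
    apply hq ε (by omega) (by omega)
    refine ⟨?_, hw2⟩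
    rw [← hγv, h1]
    exact hw
  · rw [hα3]; exact hw
  · intro i hi1 hi2
    rw [hγv]
    exact hγ4 i hi1 (by omega)
  · rw [hγv]; exact hγ3
  · rw [hδ2]; exact hδmin γ (by omega) (by omega)
  · rw [hγv, hδ2]; exact hw2

/-- Exponentially many steps are needed to replace the person at a tail position by another
neighbour of the person at the next position, while the latter stays. -/
theorem tail_cost {Y : SimpleGraph (Fin n)} (hY : Girthy Y) {m : ℕ} (hm0 : 1 ≤ m)
    (w : ℕ → Perm (Fin n)) :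
    ∀ (d p : ℕ) (hp : p + 1 < n), m + d = p + 1 → ∀ (s t : ℕ), s ≤ t →
      (∀ i, s ≤ i → i < t → FSRel (Lol n m) Y (w i) (w (i + 1))) →
      ∀ b, (∀ i, s ≤ i → i ≤ t → w i ⟨p + 1, hp⟩ = b) →
      w s ⟨p, by omega⟩ ≠ w t ⟨p, by omega⟩ → Y.Adj b (w s ⟨p, by omega⟩) →
      Y.Adj b (w t ⟨p, by omega⟩) → 2 ^ d ≤ t - s := by
  intro d
  induction d with
  | zero =>
    intro p hp hmd s t hst hw b hb hne h1 h2
    rcases Nat.lt_or_ge s t with h | h
    · simp; omega
    · exfalso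
      have : s = t := by omega
      subst this
      exact hne rfl
  | succ d ih =>
    intro p hp hmd s t hst hw b hb hne h1 h2
    obtain ⟨p, rfl⟩ : ∃ p', p = p' + 1 := ⟨p - 1, by omega⟩
    have hstep : ∀ i, s ≤ i → i < t → w (i + 1) ⟨p + 1, by omega⟩ ≠ w i ⟨p + 1, by omega⟩ →
        w (i + 1) ⟨p + 1, by omega⟩ = w i ⟨p, by omega⟩ ∧
        w (i + 1) ⟨p, by omega⟩ = w i ⟨p + 1, by omega⟩ ∧
        Y.Adj (w i ⟨p + 1, by omega⟩) (w (i + 1) ⟨p + 1, by omega⟩) := by
      intro i hi1 hi2 hne'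
      apply step_tail (hw i hi1 hi2) (by omega) (by omega) _ hne'
      intro q hq
      have : q = ⟨p + 1 + 1, hp⟩ := Fin.ext hq
      rw [this, hb i hi1 (by omega), hb (i + 1) (by omega) (by omega)]
    obtain ⟨α, β, γ, δ, c1, c2, c3, c4, c5, a1, a2, a3, a4, a5, b1, b2, b3, b4, b5⟩ :=
      two_turns (fun x y => Y.Adj x y) (fun i => w i ⟨p + 1, by omega⟩) s t hst
        (by
          intro i hi1 hi2
          by_cases h : w (i + 1) ⟨p + 1, by omega⟩ = w i ⟨p + 1, by omega⟩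
          · exact Or.inl h
          · exact Or.inr (hstep i hi1 hi2 h).2.2)
        _ _ rfl rfl hne (hY.tri b _ _ h1 h2)
        (by
          intro i hi1 hi2 hh
          have h3 := hY.quad b _ _ _ h1 h2 hne hh.1.symm hh.2
          have h4 := hb i hi1 hi2
          have h5 := (w i).injective (h3.trans h4.symm)
          have h6 := congrArg Fin.val h5
          simp at h6)
    have I1 : 2 ^ d ≤ (β - 1) - (α + 1) := by
      obtain ⟨β, rfl⟩ : ∃ β', β = β' + 1 := ⟨β - 1, by omega⟩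
      simp only [Nat.add_sub_cancel]
      have e1 := hstep α (by omega) (by omega) (fun h => a5.ne h.symm)
      have e2 : w β ⟨p + 1, by omega⟩ = w (α + 1) ⟨p + 1, by omega⟩ := a2 β (by omega) (by omega)
      have e3 := hstep β (by omega) (by omega) (fun h => a3 (h.trans e2))
      apply ih p (by omega) (by omega) (α + 1) β (by omega)
        (fun i hi1 hi2 => hw i (by omega) (by omega)) (w (α + 1) ⟨p + 1, by omega⟩)
        (fun i hi1 hi2 => a2 i (by omega) (by omega))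
      · rw [e1.2.1, ← e3.1]
        exact fun h => a4 h.symm
      · rw [e1.2.1]; exact a5.symm
      · rw [← e3.1, ← e2]; exact e3.2.2
    have I2 : 2 ^ d ≤ (δ - 1) - (γ + 1) := by
      obtain ⟨δ, rfl⟩ : ∃ δ', δ = δ' + 1 := ⟨δ - 1, by omega⟩
      simp only [Nat.add_sub_cancel]
      have e1 := hstep γ (by omega) (by omega) (fun h => b3 h.symm)
      have e2 : w δ ⟨p + 1, by omega⟩ = w (γ + 1) ⟨p + 1, by omega⟩ := b2 δ (by omega) (by omega)
      have e3 := hstep δ (by omega) (by omega) (fun h => b5.ne (e2.symm.trans h.symm))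
      apply ih p (by omega) (by omega) (γ + 1) δ (by omega)
        (fun i hi1 hi2 => hw i (by omega) (by omega)) (w (γ + 1) ⟨p + 1, by omega⟩)
        (fun i hi1 hi2 => b2 i (by omega) (by omega))
      · rw [e1.2.1, ← e3.1]
        exact b4
      · rw [e1.2.1]; exact e1.2.2.symm
      · rw [← e3.1, ← e2]; exact e3.2.2
    have : 2 ^ (d + 1) = 2 ^ d + 2 ^ d := by ring
    omega

/-- lower bound for the distance of two arrangements whose persons at the last position differ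
and are not friends -/
theorem dist_lower {Y : SimpleGraph (Fin n)} (hY : Girthy Y) {m : ℕ} (hm0 : 1 ≤ m)
    (d : ℕ) (hmd : m + d + 2 = n + 0) (σ τ : Perm (Fin n)) (hn : n - 1 < n)
    (hne : σ ⟨n - 1, hn⟩ ≠ τ ⟨n - 1, hn⟩)
    (hnadj : ¬ Y.Adj (σ ⟨n - 1, hn⟩) (τ ⟨n - 1, hn⟩))
    (w : ℕ → Perm (Fin n)) (N : ℕ) (h0 : w 0 = σ) (hN : w N = τ)
    (hw : ∀ i, i < N → FSRel (Lol n m) Y (w i) (w (i + 1))) : 2 ^ (d + 1) ≤ N := by
  obtain ⟨p, rfl⟩ : ∃ p, n = p + 2 := ⟨n - 2, by omega⟩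
  have hstep : ∀ i, i < N → w (i + 1) ⟨p + 1, by omega⟩ ≠ w i ⟨p + 1, by omega⟩ →
        w (i + 1) ⟨p + 1, by omega⟩ = w i ⟨p, by omega⟩ ∧
        w (i + 1) ⟨p, by omega⟩ = w i ⟨p + 1, by omega⟩ ∧
        Y.Adj (w i ⟨p + 1, by omega⟩) (w (i + 1) ⟨p + 1, by omega⟩) := by
    intro i hi2 hne'
    apply step_tail (hw i hi2) (by omega) (by omega) _ hne'
    intro q hq
    exact absurd q.isLt (by omega)
  obtain ⟨α, β, c1, c2, c3, a1, a2, a3, a4, a5⟩ :=
    first_turn (fun x y => Y.Adj x y) (fun i => w i ⟨p + 1, by omega⟩) 0 N (by omega)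
      (by
        intro i _ hi2
        by_cases h : w (i + 1) ⟨p + 1, by omega⟩ = w i ⟨p + 1, by omega⟩
        · exact Or.inl h
        · exact Or.inr (hstep i hi2 h).2.2)
      (σ ⟨p + 1, by omega⟩) (τ ⟨p + 1, by omega⟩) (by simp only [h0]) (by simp only [hN]) hne hnadj
  obtain ⟨β, rfl⟩ : ∃ β', β = β' + 1 := ⟨β - 1, by omega⟩
  have e0 : w α ⟨p + 1, by omega⟩ = σ ⟨p + 1, by omega⟩ := a1
  have e1 := hstep α (by omega) (fun h => a5.ne (e0.symm.trans h.symm))
  have e2 : w β ⟨p + 1, by omega⟩ = w (α + 1) ⟨p + 1, by omega⟩ := a2 β (by omega) (by omega)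
  have e3 := hstep β (by omega) (fun h => a3 (h.trans e2))
  have := tail_cost hY hm0 w (d + 1) p (by omega) (by omega) (α + 1) β (by omega)
    (fun i hi1 hi2 => hw i (by omega)) (w (α + 1) ⟨p + 1, by omega⟩)
    (fun i hi1 hi2 => a2 i (by omega) (by omega))
    (by rw [e1.2.1, ← e3.1, e0]; exact fun h => a4 h.symm)
    (by rw [e1.2.1]; exact e1.2.2.symm)
    (by rw [← e3.1, ← e2]; exact e3.2.2)
  omega

end Pool.Agent.FSDiam
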