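import Pool.Agent.FSDiam.Basic

set_option autoImplicit false

namespace Pool.Agent.FSDiam

open Equiv

variable {n : ℕ}

/-- friendly swaps inside the first `q` positions -/
def Mv (X Y : SimpleGraph (Fin n)) (q : ℕ) (σ τ : Perm (Fin n)) : Prop :=
  ∃ a b : Fin n, a.val < q ∧ b.val < q ∧ X.Adj a b ∧ Y.Adj (σ a) (σ b) ∧ τ = σ * Equiv.swap a b

/-- `Y` stays connected when at most `k` vertices are deleted -/
def Robust (Y : SimpleGraph (Fin n)) (k : ℕ) : Prop :=
  ∀ S : Finset (Fin n), S.card ≤ k → ∀ x y, x ∉ S → y ∉ S →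
    Relation.ReflTransGen (fun a b => Y.Adj a b ∧ b ∉ S) x y

lemma Mv.mono {X Y : SimpleGraph (Fin n)} {q q' : ℕ} (h : q ≤ q') {σ τ : Perm (Fin n)}
    (hm : Mv X Y q σ τ) : Mv X Y q' σ τ := by
  obtain ⟨a, b, ha, hb, h1, h2, h3⟩ := hm
  exact ⟨a, b, by omega, by omega, h1, h2, h3⟩

lemma reach_mono {X Y : SimpleGraph (Fin n)} {q q' : ℕ} (h : q ≤ q') {σ τ : Perm (Fin n)}
    (hm : Relation.ReflTransGen (Mv X Y q) σ τ) : Relation.ReflTransGen (Mv X Y q') σ τ :=
  Relation.ReflTransGen.mono (fun _ _ hh => Mv.mono h hh) _ _ hm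

/-- the persons standing at positions `≥ m` are exactly those of `S` -/
def Good (m : ℕ) (S : Finset (Fin n)) (σ : Perm (Fin n)) : Prop :=
  ∀ p : Fin n, m ≤ p.val ↔ σ p ∈ S

lemma Good.swap {m : ℕ} {S : Finset (Fin n)} {σ : Perm (Fin n)} (h : Good m S σ) {x y : Fin n}
    (hx : x ∉ S) (hy : y ∉ S) : Good m S (Equiv.swap x y * σ) := by
  intro p
  rw [h p, Perm.mul_apply]
  by_cases h1 : σ p = x
  · rw [h1, Equiv.swap_apply_left]; tauto
  · by_cases h2 : σ p = y
    · rw [h2, Equiv.swap_apply_right]; tauto
    · rw [Equiv.swap_apply_of_ne_of_ne h1 h2]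

lemma Good.pos {m : ℕ} {S : Finset (Fin n)} {σ : Perm (Fin n)} (h : Good m S σ) {x : Fin n}
    (hx : x ∉ S) : (σ.symm x).val < m := by
  by_contra hcon
  have := (h (σ.symm x)).1 (by omega)
  rw [Equiv.apply_symm_apply] at this
  exact hx this

lemma direct {m : ℕ} {Y : SimpleGraph (Fin n)} {S : Finset (Fin n)} {σ : Perm (Fin n)}
    (h : Good m S σ) {x y : Fin n} (hx : x ∉ S) (hy : y ∉ S) (hadj : Y.Adj x y) :
    Mv (Lol n m) Y m σ (Equiv.swap x y * σ) := by
  refine ⟨σ.symm x, σ.symm y, h.pos hx, h.pos hy, ⟨?_, Or.inl ⟨h.pos hx, h.pos hy⟩⟩, ?_, ?_⟩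
  · intro he
    exact hadj.ne (σ.symm.injective he)
  · simpa using hadj
  · rw [Equiv.mul_swap_eq_swap_mul]; simp

lemma swap_reach {m : ℕ} {Y : SimpleGraph (Fin n)} {S : Finset (Fin n)} {x y : Fin n} (hx : x ∉ S)
    (hr : Relation.ReflTransGen (fun a b => Y.Adj a b ∧ b ∉ S) x y) :
    y ∉ S ∧ ∀ σ : Perm (Fin n), Good m S σ →
      Relation.ReflTransGen (Mv (Lol n m) Y m) σ (Equiv.swap x y * σ) := by
  induction hr with
  | refl =>
    refine ⟨hx, fun σ hσ => ?_⟩
    rw [Equiv.swap_self]
    exact Relation.ReflTransGen.refl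
  | @tail z y hxz hzy ih =>
    obtain ⟨hz, ih⟩ := ih
    refine ⟨hzy.2, fun σ hσ => ?_⟩
    by_cases h1 : y = x
    · rw [h1, Equiv.swap_self]
      exact Relation.ReflTransGen.refl
    by_cases h2 : z = x
    · subst h2
      exact Relation.ReflTransGen.single (direct hσ hz hzy.2 hzy.1)
    have e1 := ih σ hσ
    have g1 := hσ.swap hx hz
    have e2 := direct g1 hz hzy.2 hzy.1
    have g2 := g1.swap hz hzy.2
    have e3 := ih _ g2
    have key : Equiv.swap x z * (Equiv.swap z y * (Equiv.swap x z * σ)) = Equiv.swap x y * σ := by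
      have h3 : Equiv.swap x z * Equiv.swap z y * Equiv.swap x z = Equiv.swap x y := by
        have := Equiv.swap_mul_swap_mul_swap (x := y) (y := z) (z := x) hzy.1.ne.symm h1
        rw [Equiv.swap_comm x z, Equiv.swap_comm z y, this]
      rw [← h3]; simp only [mul_assoc]
    rw [key] at e3
    exact (e1.tail e2).trans e3

/-- everything can be rearranged inside the clique -/
lemma base_reach {m : ℕ} {Y : SimpleGraph (Fin n)} {k : ℕ} (hR : Robust Y k) (hm : n ≤ m + k) :
    ∀ (N : ℕ) (σ τ : Perm (Fin n)), (∀ p : Fin n, m ≤ p.val → σ p = τ p) →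
      (Finset.univ.filter (fun p => σ p ≠ τ p)).card = N →
      Relation.ReflTransGen (Mv (Lol n m) Y m) σ τ := by
  intro N
  induction N using Nat.strong_induction_on with
  | _ N ih =>
    intro σ τ hst hcard
    by_cases hall : ∀ p, σ p = τ p
    · have : σ = τ := Equiv.ext hall
      rw [this]
    · push Not at hall
      obtain ⟨p, hp⟩ := hall
      let S : Finset (Fin n) := (Finset.univ.filter (fun q : Fin n => m ≤ q.val)).image σ
      have hScard : S.card ≤ k := by
        refine Finset.card_image_le.trans ?_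
        have : (Finset.univ.filter (fun q : Fin n => m ≤ q.val)).card ≤ (Finset.Ico m n).card := by
          apply Finset.card_le_card_of_injOn (fun q : Fin n => q.val)
          · intro q hq
            simp only [Finset.coe_filter, Finset.mem_univ, true_and, Set.mem_ofPred_eq] at hq
            simp only [Finset.coe_Ico, Set.mem_Ico]
            exact ⟨hq, q.isLt⟩
          · intro a _ b _ hab
            exact Fin.ext hab
        rw [Nat.card_Ico] at this
        omega
      have gσ : Good m S σ := by
        intro q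
        simp only [S, Finset.mem_image, Finset.mem_filter, Finset.mem_univ, true_and,
          EmbeddingLike.apply_eq_iff_eq, exists_eq_right]
      have gτ : Good m S τ := by
        intro q
        constructor
        · intro hq
          rw [← hst q hq]
          exact (gσ q).1 hq
        · intro hq
          simp only [S, Finset.mem_image, Finset.mem_filter, Finset.mem_univ, true_and] at hq
          obtain ⟨r, hr1, hr2⟩ := hq
          rw [hst r hr1] at hr2
          rwa [← τ.injective hr2]
      have hpm : ¬ m ≤ p.val := fun h => hp (hst p h)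
      have hx : σ p ∉ S := fun h => hpm ((gσ p).2 h)
      have hy : τ p ∉ S := fun h => hpm ((gτ p).2 h)
      have h1 := (swap_reach (m := m) hx (hR S hScard _ _ hx hy)).2 σ gσ
      refine h1.trans ?_
      apply ih _ _ _ τ _ rfl
      · -- fewer disagreements
        rw [← hcard]
        apply Finset.card_lt_card
        rw [Finset.ssubset_iff_of_subset]
        · refine ⟨p, ?_, ?_⟩
          · rw [Finset.mem_filter]
            exact ⟨Finset.mem_univ _, hp⟩
          · rw [Finset.mem_filter]
            rintro ⟨_, h5⟩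
            apply h5
            rw [Perm.mul_apply, Equiv.swap_apply_left]
        · intro q hq
          rw [Finset.mem_filter] at hq ⊢
          obtain ⟨_, hq⟩ := hq
          refine ⟨Finset.mem_univ _, ?_⟩
          rw [Perm.mul_apply] at hq
          intro heq
          by_cases e1 : σ q = σ p
          · have := σ.injective e1
            subst this
            exact hp heq
          · by_cases e2 : σ q = τ p
            · rw [heq] at e2
              have := τ.injective e2
              subst this
              exact hp heq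
            · rw [Equiv.swap_apply_of_ne_of_ne e1 e2] at hq
              exact hq heq
      · intro q hq
        rw [Perm.mul_apply, Equiv.swap_apply_of_ne_of_ne]
        · exact hst q hq
        · intro h
          exact hx (h ▸ (gσ q).1 hq)
        · intro h
          exact hy (h ▸ (gσ q).1 hq)

/-- arrangements which agree at all positions `≥ q` are connected by swaps inside the first `q`
positions -/
theorem level_reach {m : ℕ} {Y : SimpleGraph (Fin n)} {k : ℕ} (hR : Robust Y k) (hm : n ≤ m + k)
    (hm0 : 1 ≤ m) (q : ℕ) (hq : m ≤ q) : q ≤ n →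
    ∀ (σ τ : Perm (Fin n)), (∀ p : Fin n, q ≤ p.val → σ p = τ p) →
      Relation.ReflTransGen (Mv (Lol n m) Y q) σ τ := by
  induction q, hq using Nat.le_induction with
  | base =>
    intro _ σ τ h
    exact base_reach hR hm _ σ τ h rfl
  | succ q hq ih =>
    intro hqn σ τ h
    have ih := ih (by omega)
    let Q : Fin n := ⟨q, by omega⟩
    let Q1 : Fin n := ⟨q - 1, by omega⟩
    let S : Finset (Fin n) := (Finset.univ.filter (fun r : Fin n => q + 1 ≤ r.val)).image σ
    have hScard : S.card ≤ k := by
      refine Finset.card_image_le.trans ?_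
      have : (Finset.univ.filter (fun r : Fin n => q + 1 ≤ r.val)).card ≤
          (Finset.Ico (q + 1) n).card := by
        apply Finset.card_le_card_of_injOn (fun q : Fin n => q.val)
        · intro q hq
          simp only [Finset.coe_filter, Finset.mem_univ, true_and, Set.mem_ofPred_eq] at hq
          simp only [Finset.coe_Ico, Set.mem_Ico]
          exact ⟨hq, q.isLt⟩
        · intro a _ b _ hab
          exact Fin.ext hab
      rw [Nat.card_Ico] at this
      omega
    have hSmem : ∀ r : Fin n, q + 1 ≤ r.val ↔ σ r ∈ S := by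
      intro r
      simp only [S, Finset.mem_image, Finset.mem_filter, Finset.mem_univ, true_and,
          EmbeddingLike.apply_eq_iff_eq, exists_eq_right]
    have hx : σ Q ∉ S := by
      intro hh
      have := (hSmem Q).2 hh
      simp [Q] at this
    have hy : τ Q ∉ S := by
      intro hh
      simp only [S, Finset.mem_image, Finset.mem_filter, Finset.mem_univ, true_and] at hh
      obtain ⟨r, hr1, hr2⟩ := hh
      rw [h r hr1] at hr2
      have := τ.injective hr2
      rw [this] at hr1
      simp [Q] at hr1
    have claim : ∀ z, Relation.ReflTransGen (fun a b => Y.Adj a b ∧ b ∉ S) (σ Q) z →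
        ∃ σ' : Perm (Fin n), Relation.ReflTransGen (Mv (Lol n m) Y (q + 1)) σ σ' ∧
          σ' Q = z ∧ ∀ p : Fin n, q + 1 ≤ p.val → σ' p = σ p := by
      intro z hz
      induction hz with
      | refl => exact ⟨σ, Relation.ReflTransGen.refl, rfl, fun _ _ => rfl⟩
      | @tail z z' _ hzz' ihz =>
        obtain ⟨σ', r1, r2, r3⟩ := ihz
        let r : Fin n := σ'.symm z'
        have hr : σ' r = z' := Equiv.apply_symm_apply _ _
        have hrq : r.val < q := by
          by_contra hcon
          rcases Nat.lt_or_ge q r.val with h5 | h5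
          · have h6 := r3 r h5
            rw [hr] at h6
            apply hzz'.2
            rw [h6]
            exact (hSmem r).1 h5
          · have h6 : r = Q := Fin.ext (by simp only [Q]; omega)
            rw [h6] at hr
            exact hzz'.1.ne (r2.symm.trans hr)
        let σ2 : Perm (Fin n) := σ' * Equiv.swap Q1 r
        have hQ1 : Q1.val = q - 1 := rfl
        have hQ : Q.val = q := rfl
        have hσ2 : ∀ p : Fin n, q ≤ p.val → σ' p = σ2 p := by
          intro p hp
          simp only [σ2, Perm.mul_apply]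
          rw [Equiv.swap_apply_of_ne_of_ne]
          · intro he
            rw [he, hQ1] at hp
            omega
          · intro he
            rw [he] at hp
            omega
        have e1 : Relation.ReflTransGen (Mv (Lol n m) Y (q + 1)) σ' σ2 :=
          reach_mono (by omega) (ih σ' σ2 hσ2)
        have e2 : σ2 Q1 = z' := by
          simp only [σ2, Perm.mul_apply, Equiv.swap_apply_left, hr]
        have e3 : σ2 Q = z := by rw [← hσ2 Q (by rw [hQ]), r2]
        have e4 : Mv (Lol n m) Y (q + 1) σ2 (σ2 * Equiv.swap Q1 Q) := by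
          refine ⟨Q1, Q, by rw [hQ1]; omega, by rw [hQ]; omega, ⟨?_, Or.inr (Or.inl ?_)⟩, ?_, rfl⟩
          · intro he
            have := congrArg Fin.val he
            rw [hQ1, hQ] at this
            omega
          · rw [hQ1, hQ]; omega
          · rw [e2, e3]; exact hzz'.1.symm
        refine ⟨σ2 * Equiv.swap Q1 Q, (r1.trans e1).tail e4, ?_, ?_⟩
        · rw [Perm.mul_apply, Equiv.swap_apply_right, e2]
        · intro p hp
          rw [Perm.mul_apply, Equiv.swap_apply_of_ne_of_ne, ← hσ2 p (by omega), r3 p hp]
          · intro he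
            rw [he, hQ1] at hp
            omega
          · intro he
            rw [he, hQ] at hp
            omega
    obtain ⟨σ', r1, r2, r3⟩ := claim (τ Q) (hR S hScard _ _ hx hy)
    refine r1.trans (reach_mono (by omega) (ih σ' τ ?_))
    intro p hp
    rcases Nat.lt_or_ge q p.val with h5 | h5
    · rw [r3 p h5, h p h5]
    · have : p = Q := Fin.ext (by simp only [Q]; omega)
      rw [this, r2]

theorem fs_connected {m : ℕ} {Y : SimpleGraph (Fin n)} {k : ℕ} (hR : Robust Y k)
    (hm : n ≤ m + k) (hm0 : 1 ≤ m) (hmn : m ≤ n) : (FS (Lol n m) Y).Connected := by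
  rw [SimpleGraph.connected_iff]
  refine ⟨fun σ τ => ?_, ⟨1⟩⟩
  have h := level_reach hR hm hm0 n hmn le_rfl σ τ (fun p hp => absurd p.isLt (by omega))
  induction h with
  | refl => exact SimpleGraph.Reachable.refl _
  | tail _ hbc ih =>
    refine ih.trans (SimpleGraph.Adj.reachable ?_)
    obtain ⟨a, b, _, _, h1, h2, h3⟩ := hbc
    exact FS_adj.2 ⟨a, b, h1, h2, h3⟩

/-- the diameter is at least exponential in the length of the tail -/
theorem fs_diam {m : ℕ} {Y : SimpleGraph (Fin n)} (hY : Girthy Y) {k : ℕ} (hR : Robust Y k)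
    (hm : n ≤ m + k) (hm0 : 1 ≤ m) (d : ℕ) (hmd : m + d + 2 = n)
    (x y : Fin n) (hxy : x ≠ y) (hadj : ¬ Y.Adj x y) :
    2 ^ (d + 1) ≤ (FS (Lol n m) Y).diam := by
  have hc := fs_connected hR hm hm0 (by omega)
  have hn : n - 1 < n := by omega
  let L : Fin n := ⟨n - 1, hn⟩
  let σ : Perm (Fin n) := Equiv.swap L x
  let τ : Perm (Fin n) := Equiv.swap L y
  have hσ : σ L = x := Equiv.swap_apply_left _ _
  have hτ : τ L = y := Equiv.swap_apply_left _ _
  have h1 : (FS (Lol n m) Y).dist σ τ ≤ (FS (Lol n m) Y).diam :=
    SimpleGraph.dist_le_diam (SimpleGraph.connected_iff_ediam_ne_top.1 hc)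
  refine le_trans ?_ h1
  obtain ⟨w, hw⟩ := hc.exists_walk_length_eq_dist σ τ
  rw [← hw]
  apply dist_lower hY hm0 d (by omega) σ τ hn (by rw [hσ, hτ]; exact hxy)
    (by rw [hσ, hτ]; exact hadj) (fun i => w.getVert i) w.length
  · exact w.getVert_zero
  · exact w.getVert_length
  · intro i hi
    exact FS_adj.1 (w.adj_getVert_succ hi)

end Pool.Agent.FSDiam
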