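import Pool.Agent.FSDiam.Conn

set_option autoImplicit false

namespace Pool.Agent.FSDiam

/-- points and lines of the affine plane over `ZMod p` (non-vertical lines only) -/
abbrev PL (p : ℕ) : Type := (ZMod p × ZMod p) ⊕ (ZMod p × ZMod p)

/-- point `(x,y)` is incident with line `(m,b)` iff `y = m x + b` -/
def inc (p : ℕ) : SimpleGraph (PL p) where
  Adj u v := match u, v with
    | Sum.inl a, Sum.inr l => a.2 = l.1 * a.1 + l.2
    | Sum.inr l, Sum.inl a => a.2 = l.1 * a.1 + l.2
    | _, _ => False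
  symm := ⟨by
    intro u v h
    rcases u with u | u <;> rcases v with v | v <;> exact h⟩
  loopless := ⟨by
    intro u h
    rcases u with u | u <;> exact h⟩

variable {p : ℕ}

@[simp] lemma inc_lr (a l : ZMod p × ZMod p) :
    (inc p).Adj (Sum.inl a) (Sum.inr l) ↔ a.2 = l.1 * a.1 + l.2 := Iff.rfl
@[simp] lemma inc_rl (a l : ZMod p × ZMod p) :
    (inc p).Adj (Sum.inr l) (Sum.inl a) ↔ a.2 = l.1 * a.1 + l.2 := Iff.rfl
@[simp] lemma inc_ll (a l : ZMod p × ZMod p) :
    (inc p).Adj (Sum.inl a) (Sum.inl l) ↔ False := Iff.rfl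
@[simp] lemma inc_rr (a l : ZMod p × ZMod p) :
    (inc p).Adj (Sum.inr a) (Sum.inr l) ↔ False := Iff.rfl

variable [Fact p.Prime]

omit [Fact p.Prime] in
lemma inc_tri (b u v : PL p) (h1 : (inc p).Adj b u) (h2 : (inc p).Adj b v) :
    ¬ (inc p).Adj u v := by
  rcases b with b | b <;> rcases u with u | u <;> rcases v with v | v <;> simp at h1 h2 ⊢

lemma inc_quad (b u v w : PL p) (h1 : (inc p).Adj b u) (h2 : (inc p).Adj b v) (huv : u ≠ v)
    (h3 : (inc p).Adj w u) (h4 : (inc p).Adj w v) : w = b := by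
  rcases b with b | b <;> rcases u with u | u <;> rcases v with v | v <;>
    rcases w with w | w <;> simp at h1 h2 h3 h4
  · -- b w points, u v lines
    have hne : u.1 ≠ v.1 := by
      intro h
      apply huv
      congr 1
      refine Prod.ext h ?_
      rw [h] at h1
      linear_combination h2 - h1
    have hx : w.1 = b.1 := by
      have h5 : (u.1 - v.1) * (w.1 - b.1) = 0 := by linear_combination h1 - h2 - h3 + h4
      rcases mul_eq_zero.1 h5 with h | h
      · exact absurd (sub_eq_zero.1 h) hne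
      · exact sub_eq_zero.1 h
    congr 1
    refine Prod.ext hx ?_
    rw [h1, h3, hx]
  · -- b w lines, u v points
    have hne : u.1 ≠ v.1 := by
      intro h
      apply huv
      congr 1
      refine Prod.ext h ?_
      rw [h1, h2, h]
    have hx : w.1 = b.1 := by
      have h5 : (u.1 - v.1) * (w.1 - b.1) = 0 := by linear_combination h1 - h2 - h3 + h4
      rcases mul_eq_zero.1 h5 with h | h
      · exact absurd (sub_eq_zero.1 h) hne
      · exact sub_eq_zero.1 h
    congr 1
    refine Prod.ext hx ?_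
    rw [hx] at h3
    linear_combination h1 - h3

/-- a line through a given point avoiding `T` -/
lemma exists_line (T : Finset (PL p)) (hT : T.card < p) (P : ZMod p × ZMod p) :
    ∃ l : ZMod p × ZMod p, Sum.inr l ∉ T ∧ P.2 = l.1 * P.1 + l.2 := by
  classical
  by_contra hcon
  push Not at hcon
  have h : ∀ m : ZMod p, (Sum.inr (m, P.2 - m * P.1) : PL p) ∈ T := by
    intro m
    by_contra hm
    exact hcon (m, P.2 - m * P.1) hm (by simp)
  have := Finset.card_le_card_of_injOn (s := (Finset.univ : Finset (ZMod p))) (t := T)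
    (fun m => (Sum.inr (m, P.2 - m * P.1) : PL p)) (fun m _ => h m)
    (by
      intro a _ b _ hab
      simp only [Sum.inr.injEq, Prod.mk.injEq] at hab
      exact hab.1)
  rw [Finset.card_univ, ZMod.card] at this
  omega

/-- a point on a given line avoiding `T` -/
lemma exists_point (T : Finset (PL p)) (hT : T.card < p) (l : ZMod p × ZMod p) :
    ∃ P : ZMod p × ZMod p, Sum.inl P ∉ T ∧ P.2 = l.1 * P.1 + l.2 := by
  classical
  by_contra hcon
  push Not at hcon
  have h : ∀ x : ZMod p, (Sum.inl (x, l.1 * x + l.2) : PL p) ∈ T := by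
    intro m
    by_contra hm
    exact hcon (m, l.1 * m + l.2) hm (by simp)
  have := Finset.card_le_card_of_injOn (s := (Finset.univ : Finset (ZMod p))) (t := T)
    (fun x => (Sum.inl (x, l.1 * x + l.2) : PL p)) (fun m _ => h m)
    (by
      intro a _ b _ hab
      simp only [Sum.inl.injEq, Prod.mk.injEq] at hab
      exact hab.1)
  rw [Finset.card_univ, ZMod.card] at this
  omega

/-- from a line `l` not through `Q` one can reach `Q` -/
lemma exists_path (T : Finset (PL p)) (hT : T.card + 1 < p) (l Q : ZMod p × ZMod p)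
    (hQ : Q.2 ≠ l.1 * Q.1 + l.2) :
    ∃ R l' : ZMod p × ZMod p, (Sum.inl R : PL p) ∉ T ∧ (Sum.inr l' : PL p) ∉ T ∧
      R.2 = l.1 * R.1 + l.2 ∧ R.2 = l'.1 * R.1 + l'.2 ∧ Q.2 = l'.1 * Q.1 + l'.2 := by
  classical
  by_contra hcon
  push Not at hcon
  let L : ZMod p → ZMod p × ZMod p := fun m => (m, Q.2 - m * Q.1)
  let X : ZMod p → ZMod p := fun m => (Q.2 - m * Q.1 - l.2) / (l.1 - m)
  let R : ZMod p → ZMod p × ZMod p := fun m => (X m, l.1 * X m + l.2)
  have hX : ∀ m, m ≠ l.1 → (l.1 - m) * X m = Q.2 - m * Q.1 - l.2 := by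
    intro m hm
    have : l.1 - m ≠ 0 := sub_ne_zero.2 hm.symm
    simp only [X]
    field_simp
  have hbad : ∀ m, m ≠ l.1 → (Sum.inl (R m) : PL p) ∉ T → (Sum.inr (L m) : PL p) ∈ T := by
    intro m hm h1
    by_contra h2
    refine hcon (R m) (L m) h1 h2 rfl ?_ ?_
    · simp only [R, L]
      linear_combination hX m hm
    · simp only [L]; ring
  have hinj : ∀ a b, a ≠ l.1 → b ≠ l.1 → X a = X b → a = b := by
    intro a b ha hb hab
    have h1 := hX a ha
    have h2 := hX b hb
    rw [← hab] at h2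
    -- (b - a) * X = (b - a) * Q.1
    have h3 : (b - a) * (X a - Q.1) = 0 := by linear_combination h1 - h2
    rcases mul_eq_zero.1 h3 with h | h
    · exact (sub_eq_zero.1 h).symm
    · exfalso
      apply hQ
      have h4 : X a = Q.1 := sub_eq_zero.1 h
      rw [h4] at h1
      linear_combination -h1
  let g : ZMod p → PL p := fun m => if (Sum.inl (R m) : PL p) ∈ T then Sum.inl (R m)
    else Sum.inr (L m)
  have hc := Finset.card_le_card_of_injOn (s := (Finset.univ : Finset (ZMod p)).erase l.1) (t := T)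
    g (by
      intro m hm
      have hm' : m ≠ l.1 := Finset.ne_of_mem_erase hm
      simp only [g]
      split_ifs with h
      · exact h
      · exact hbad m hm' h)
    (by
      intro a ha b hb hab
      have ha' : a ≠ l.1 := Finset.ne_of_mem_erase ha
      have hb' : b ≠ l.1 := Finset.ne_of_mem_erase hb
      simp only [g] at hab
      split_ifs at hab with h1 h2 h2
      · simp only [Sum.inl.injEq, R, Prod.mk.injEq] at hab
        exact hinj a b ha' hb' hab.1
      · simp only [Sum.inr.injEq, L, Prod.mk.injEq] at hab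
        exact hab.1)
  rw [Finset.card_erase_of_mem (Finset.mem_univ _), Finset.card_univ, ZMod.card] at hc
  omega

/-- the incidence graph stays connected after deleting at most `p - 2` vertices -/
lemma inc_robust (T : Finset (PL p)) (hT : T.card + 1 < p) (x y : PL p) (hx : x ∉ T)
    (hy : y ∉ T) : Relation.ReflTransGen (fun a b => (inc p).Adj a b ∧ b ∉ T) x y := by
  have pp : ∀ P Q : ZMod p × ZMod p, (Sum.inl Q : PL p) ∉ T →
      Relation.ReflTransGen (fun a b => (inc p).Adj a b ∧ b ∉ T) (Sum.inl P) (Sum.inl Q) := by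
    intro P Q hQ
    obtain ⟨l, hl1, hl2⟩ := exists_line T (by omega) P
    have s1 : Relation.ReflTransGen (fun a b => (inc p).Adj a b ∧ b ∉ T) (Sum.inl P) (Sum.inr l) :=
      Relation.ReflTransGen.single ⟨hl2, hl1⟩
    by_cases hQl : Q.2 = l.1 * Q.1 + l.2
    · exact s1.tail ⟨hQl, hQ⟩
    · obtain ⟨R, l', h1, h2, h3, h4, h5⟩ := exists_path T hT l Q hQl
      have s2 : Relation.ReflTransGen (fun a b => (inc p).Adj a b ∧ b ∉ T) (Sum.inl P)
          (Sum.inl R) := s1.tail ⟨h3, h1⟩
      have s3 : Relation.ReflTransGen (fun a b => (inc p).Adj a b ∧ b ∉ T) (Sum.inl P)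
          (Sum.inr l') := s2.tail ⟨h4, h2⟩
      exact s3.tail ⟨h5, hQ⟩
  have pq : ∀ (P : ZMod p × ZMod p) (z : PL p), z ∉ T →
      Relation.ReflTransGen (fun a b => (inc p).Adj a b ∧ b ∉ T) (Sum.inl P) z := by
    intro P z hz
    rcases z with Q | l
    · exact pp P Q hz
    · obtain ⟨R, h1, h2⟩ := exists_point T (by omega) l
      exact (pp P R h1).tail ⟨h2, hz⟩
  rcases x with P | l
  · exact pq P y hy
  · obtain ⟨R, h1, h2⟩ := exists_point T (by omega) l
    exact (Relation.ReflTransGen.single ⟨h2, h1⟩).trans (pq R y hy)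

/-- main family -/
theorem family (hp : 5 ≤ p) : ∃ X Y : SimpleGraph (Fin (2 * p ^ 2)),
    (FS X Y).Connected ∧ 2 ^ (p - 3) ≤ (FS X Y).diam := by
  classical
  have hcard : Fintype.card (PL p) = 2 * p ^ 2 := by
    rw [Fintype.card_sum, Fintype.card_prod, ZMod.card]; ring
  let e : Fin (2 * p ^ 2) ≃ PL p := (Fintype.equivFinOfCardEq hcard).symm
  let Y : SimpleGraph (Fin (2 * p ^ 2)) := (inc p).comap e
  have hYadj : ∀ i j, Y.Adj i j ↔ (inc p).Adj (e i) (e j) := fun i j => Iff.rfl
  have hG : Girthy Y := by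
    constructor
    · intro b u v h1 h2 h3
      exact inc_tri _ _ _ h1 h2 h3
    · intro b u v w h1 h2 huv h3 h4
      exact e.injective (inc_quad _ _ _ _ h1 h2 (fun h => huv (e.injective h)) h3 h4)
  have hR : Robust Y (p - 2) := by
    intro S hS x y hx hy
    have h1 := inc_robust (p := p) (S.map e.toEmbedding) (by rw [Finset.card_map]; omega) (e x) (e y)
      (by simpa using hx) (by simpa using hy)
    have h2 := Relation.ReflTransGen.lift (r := fun a b => (inc p).Adj a b ∧ b ∉ S.map e.toEmbedding)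
      (p := fun a b => Y.Adj a b ∧ b ∉ S) e.symm (by
        rintro a b ⟨h3, h4⟩
        refine ⟨?_, ?_⟩
        · rw [hYadj, Equiv.apply_symm_apply, Equiv.apply_symm_apply]; exact h3
        · intro h5
          apply h4
          rw [Finset.mem_map]
          exact ⟨_, h5, Equiv.apply_symm_apply _ _⟩) _ _ h1
    simp only [Function.onFun, Equiv.symm_apply_apply] at h2
    exact h2
  have hn : p + 2 ≤ 2 * p ^ 2 := by nlinarith
  obtain ⟨m, hm⟩ : ∃ m, m + (p - 2) = 2 * p ^ 2 := ⟨2 * p ^ 2 - (p - 2), by omega⟩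
  have hm0 : 1 ≤ m := by omega
  refine ⟨Lol _ m, Y, fs_connected hR (by omega) hm0 (by omega), ?_⟩
  have h := fs_diam (m := m) hG hR (by omega) hm0 (p - 4) (by omega)
    (e.symm (Sum.inl (0, 0))) (e.symm (Sum.inl (0, 1)))
    (by
      intro h
      have := e.symm.injective h
      simp at this)
    (by
      rw [hYadj, Equiv.apply_symm_apply, Equiv.apply_symm_apply]
      simp)
  have h2 : p - 4 + 1 = p - 3 := by omega
  rwa [h2] at h

omit [Fact p.Prime] in
lemma growth (C : ℕ) : ∃ N : ℕ, ∀ q ≥ N, C * (2 * q ^ 2 + 1) ^ C < 2 ^ (q - 3) := by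
  have h := isLittleO_pow_const_const_pow_of_one_lt (R := ℝ) (3 * C) (r := 2) (by norm_num)
  have h2 := h.def (c := 1 / (8 * ((C : ℝ) + 1))) (by positivity)
  rw [Filter.eventually_atTop] at h2
  obtain ⟨N, hN⟩ := h2
  refine ⟨max N 3, fun q hq => ?_⟩
  have hq1 : N ≤ q := le_trans (le_max_left _ _) hq
  have hq3 : 3 ≤ q := le_trans (le_max_right _ _) hq
  have h3 := hN q hq1
  rw [Real.norm_of_nonneg (by positivity), Real.norm_of_nonneg (by positivity)] at h3
  have h4 : 2 * q ^ 2 + 1 ≤ q ^ 3 := by nlinarith [sq_nonneg q, mul_le_mul hq3 (le_refl (q^2)) (by positivity) (by positivity)]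
  have h5 : (2 * q ^ 2 + 1) ^ C ≤ q ^ (3 * C) := by
    rw [pow_mul]; exact Nat.pow_le_pow_left h4 C
  obtain ⟨r, rfl⟩ : ∃ r, q = r + 3 := ⟨q - 3, by omega⟩
  have h6 : (C : ℝ) * ((r + 3 : ℕ) : ℝ) ^ (3 * C) < 2 ^ r := by
    have h7 : (C : ℝ) * (1 / (8 * ((C : ℝ) + 1)) * 2 ^ (r + 3)) < 2 ^ r := by
      have : (C : ℝ) * (1 / (8 * ((C : ℝ) + 1)) * 2 ^ (r + 3)) = (C / (C + 1)) * 2 ^ r := by
        field_simp
        ring
      rw [this]
      have h8 : (C : ℝ) / (C + 1) < 1 := by
        rw [div_lt_one (by positivity)]; linarith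
      have h9 : (0 : ℝ) < 2 ^ r := by positivity
      nlinarith
    refine lt_of_le_of_lt ?_ h7
    exact mul_le_mul_of_nonneg_left h3 (by positivity)
  have h10 : C * (r + 3) ^ (3 * C) < 2 ^ r := by exact_mod_cast h6
  calc C * (2 * (r + 3) ^ 2 + 1) ^ C ≤ C * (r + 3) ^ (3 * C) := Nat.mul_le_mul_left _ h5
    _ < 2 ^ r := h10
    _ = 2 ^ (r + 3 - 3) := by simp

end Pool.Agent.FSDiam
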